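import Pool.Agent.H60.LQ.Cfg

/-!
# LQ, row AIL2: entropy of the family of the lines 2 given `Y`
-/

set_option autoImplicit false

namespace Pool.LQ

open Finset Real
open Pool.Agent.H49.Ent Pool.Agent.H32.Dense Pool.KTH

/-- `H(v₁ v₂) + H(Y|v₁ v₂) = H(v₂|Y) + H(Y) + H(v₁|v₂ Y)` -/
lemma ail2_aux {d J : ℕ} (F : Cf d J) :
    CH F.q F.v12 F.Z + CH F.q F.Y (fun w => (F.v12 w, F.Z w)) = F.FI.L + F.yh + F.et := by
  have h1 : CH F.q (fun w => (F.v₂ w, F.Y w)) F.Z = F.FI.L + F.yh := by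
    rw [CH_chain F.hq, add_comm]
    rfl
  have h2 : CH F.q (fun w => (F.v₁ w, (F.v₂ w, F.Y w))) F.Z = F.FI.L + F.yh + F.et := by
    rw [CH_chain F.hq, h1]
    have h3 : CH F.q F.v₁ (fun w => ((F.v₂ w, F.Y w), F.Z w)) = F.et := by
      refine CH_congr F.hq ?_ ?_ ?_ ?_ <;>
      · intro ω ω' _ _ h
        try simp only [Prod.mk.injEq] at h ⊢
        tauto
    rw [h3]
  have h4 : CH F.q (fun w => (F.Y w, F.v12 w)) F.Z =
      CH F.q (fun w => (F.v₁ w, (F.v₂ w, F.Y w))) F.Z := by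
    refine CH_congr F.hq ?_ ?_ ?_ ?_ <;>
    · intro ω ω' _ _ h
      try simp only [Cf.v12, Prod.mk.injEq] at h ⊢
      tauto
  have h5 := CH_chain F.hq F.Y F.v12 F.Z
  linarith

/-- AIL2 -/
theorem ail2 (hT : TLN2Stmt) : AIL2Stmt := by
  intro d hd ε hε
  obtain ⟨C, hC, h⟩ := (hT d hd).2 ε hε
  refine ⟨C, hC, fun J F L sb K G hok => ?_⟩
  have h1 := h J F L sb K G hok
  have h2 := ail2_aux F
  have h3 : gY F = 2 * lm J - F.y12 - CH F.q F.Y (fun w => (F.v12 w, F.Z w)) := rfl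
  linarith

end Pool.LQ
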